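import Pool.Agent.TH894.PR4

/-!
# The asymptotic formula of Hardy and Littlewood for prime pairs, for almost all differences which arise
from an arbitrary integer by a bounded number of changes of digits

Definition used from `Pool.Agent.H560R3.GB`: `sing n`: the singular series
`2 C₂ ∏_{p ∣ n, p > 2} (p - 1) / (p - 2)`, where `C₂ = ∏_{p > 2} (1 - 1 / (p - 1) ^ 2)` is the twin prime
constant (for `d > 0` even the main term `M_d(x; q)` of the problem is `sing d * Li₂(x) / |φ_d(q)|`).
-/

set_option autoImplicit false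

namespace Pool.Agent.Results.MP_92ef0c_nt.PairsFewDigitChanges

open Finset Pool.Agent.H560R3.GB

/-- The number of primes `q` with `y₁ < q ≤ y₂` and `q ≡ r (mod k)` for which `q + n` is a prime. -/
noncomputable def pairs (n k r y₁ y₂ : ℕ) : ℕ :=
  Nat.card {q : ℕ // q.Prime ∧ (q + n).Prime ∧ y₁ < q ∧ q ≤ y₂ ∧ q ≡ r [MOD k]}

/-- The number of classes `α` modulo `k` for which `α` and `α + n` are both prime to `k`. -/
def classes (k n : ℕ) : ℕ := ((range k).filter (fun α => Nat.Coprime α k ∧ Nat.Coprime (α + n) k)).card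

/-- The predicted number of pairs (for windows of length at least `ε X` in `[0, X]`). -/
noncomputable def pred (X n k y₁ y₂ : ℕ) : ℝ :=
  sing n * ((y₂ : ℝ) - y₁) / (classes k n * Real.log X ^ 2)

/-- For all moduli `1 ≤ k ≤ Q`, all classes `r` with `(r, k) = (r + n, k) = 1`, and all windows
`0 ≤ y₁ < q ≤ y₂ ≤ X` with `y₂ - y₁ ≥ ε X`, the number of primes `q` in the window and in the class for
which `q + n` is a prime agrees with its prediction up to a relative error of at most `ε`. -/
def Holds (ε : ℝ) (Q X n : ℕ) : Prop :=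
  ∀ k r : ℕ, 1 ≤ k → k ≤ Q → Nat.Coprime r k → Nat.Coprime (r + n) k →
    ∀ y₁ y₂ : ℕ, y₁ < y₂ → y₂ ≤ X → ε * X ≤ (y₂ : ℝ) - y₁ →
      |(pairs n k r y₁ y₂ : ℝ) - pred X n k y₁ y₂| ≤ ε * pred X n k y₁ y₂

/-- The digit number `i` (counted from the right, beginning with `0`) of `n` in base `b`. -/
def digit (b i n : ℕ) : ℕ := n / b ^ i % b

/-- The number which arises from the number `N` with at most `K` digits in base `b`, if for every `i ∈ S`
the digit number `i` is replaced by `f i`. -/
def change (b K N : ℕ) (f : ℕ → ℕ) (S : Finset ℕ) : ℕ :=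
  ∑ i ∈ range K, (if i ∈ S then f i else digit b i N) * b ^ i

/-- The positions `1, ..., K - 1` of a number with at most `K` digits are divided into three windows: the
first and the last `h` positions and the rest. -/
def window (h K : ℕ) (q : Fin 3) : Finset ℕ :=
  if q = 0 then Ico 1 (1 + h) else if q = 1 then Ico (1 + h) (K - h) else Ico (K - h) K

/-- The choices of `r 0`, `r 1`, `r 2` positions in the three windows. -/
def choices (h K : ℕ) (r : Fin 3 → ℕ) : Finset (Fin 3 → Finset ℕ) :=
  Fintype.piFinset (fun q => powersetCard (r q) (window h K q))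

open Classical in
/-- The number of the choices for which the number obtained by changing the digits of `N` at the chosen
positions (according to `f`) is positive and even, but does not satisfy `Holds ε Q (b ^ K)`. -/
noncomputable def exceptions (ε : ℝ) (Q b h K N : ℕ) (f : ℕ → ℕ) (r : Fin 3 → ℕ) : ℕ :=
  ((choices h K r).filter (fun S => 0 < change b K N f (S 0 ∪ S 1 ∪ S 2) ∧
    Even (change b K N f (S 0 ∪ S 1 ∪ S 2)) ∧ ¬ Holds ε Q (b ^ K) (change b K N f (S 0 ∪ S 1 ∪ S 2)))).card

open Pool.Agent.TH935.DF in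
lemma pairs_eq (n k r y₁ y₂ : ℕ) : pairs n k r y₁ y₂ = cc k r n y₁ y₂ := by
  classical
  unfold pairs cc
  have e : Nat.card {q : ℕ // q.Prime ∧ (q + n).Prime ∧ y₁ < q ∧ q ≤ y₂ ∧ q ≡ r [MOD k]} =
      Nat.card {q : ℕ // q ∈ (Ioc y₁ y₂).filter (fun p : ℕ => p.Prime ∧ (p + n).Prime ∧ p ≡ r [MOD k])} := by
    apply Nat.card_congr
    apply Equiv.subtypeEquivRight
    intro q
    rw [mem_filter, mem_Ioc]
    tauto
  rw [e, Nat.card_eq_fintype_card, Fintype.card_coe]

lemma holds_of (ε : ℝ) (Q X n : ℕ) (h : Pool.Agent.TH894.PR.HCe ε Q X n) : Holds ε Q X n := by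
  intro k r hk hkL hr hrn y₁ y₂ h12 hy2 hΔ
  rw [pairs_eq]
  exact h k r hk hkL hr hrn y₁ y₂ h12 hy2 hΔ

/-- For every base `b ≥ 2` there are `R`, `A ≥ 1` with the following property. Let `ε > 0` and `Q` be given.
Then there is a `t` such that for every sufficiently large `K` and every integer `0 ≤ N < b ^ K` the
following holds.

Let `h = A (⌊log_b (K + 1)⌋ + 1)`, and divide the positions `1, ..., K - 1` of the digits of `N` (leading
zeros are added) into three windows: the first `h` and the last `h` of them, and the rest. Let `r 0`,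
`r 1`, `r 2` be integers between `t` and `1 / R` times the length of the respective window (by the first
assertion one can take `r 0 = r 1 = r 2 = t`, so that only the bounded number `3 t` of the digits are
changed). Prescribe for every position a digit `f i` different from the digit of `N`. If `r 0`, `r 1`, `r 2`
positions in the three windows are chosen, and the digits of `N` at these positions are replaced, then for
all but at most a proportion `ε` of the choices of the positions the number `n` obtained is zero or odd, or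
the number of pairs `q, q + n` of primes, with `q` in a window of length at least `ε b ^ K` in
`[0, b ^ K]` and in an admissible residue class to a modulus `k ≤ Q`, satisfies the asymptotic formula of
Hardy and Littlewood up to a relative error of at most `ε`, for all these windows and residue classes. -/
theorem result (b : ℕ) (hb : 2 ≤ b) : ∃ R A : ℕ, 1 ≤ R ∧ 1 ≤ A ∧ ∀ ε : ℝ, 0 < ε → ∀ Q : ℕ, ∃ t K₀ : ℕ,
    ∀ K : ℕ, K₀ ≤ K → (∀ q, R * t ≤ (window (A * (Nat.log b (K + 1) + 1)) K q).card) ∧
    ∀ N : ℕ, N < b ^ K → ∀ f : ℕ → ℕ, (∀ i, f i < b ∧ f i ≠ digit b i N) →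
    ∀ r : Fin 3 → ℕ, (∀ q, t ≤ r q ∧ R * r q ≤ (window (A * (Nat.log b (K + 1) + 1)) K q).card) →
      (exceptions ε Q b (A * (Nat.log b (K + 1) + 1)) K N f r : ℝ) ≤
        ε * (choices (A * (Nat.log b (K + 1) + 1)) K r).card := by
  classical
  obtain ⟨R, A, hR, hA, H⟩ := Pool.Agent.TH894.PR.final_W b hb
  refine ⟨8 * R, 2 * A, by omega, by omega, fun ε hε Q => ?_⟩
  obtain ⟨t, K₀, h1⟩ := H ε hε Q
  have hwin : ∀ K q, window (2 * A * (Nat.log b (K + 1) + 1)) K q =
      Pool.Agent.TH894.SM.Win (Pool.Agent.W93.DG.hh b A (K + 1)) (K + 1) q := by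
    intro K q
    unfold window Pool.Agent.TH894.SM.Win Pool.Agent.W93.DG.hh
    rw [Nat.add_sub_cancel]
  refine ⟨t, K₀, fun K hK => ?_⟩
  obtain ⟨h2, h3⟩ := h1 K hK
  refine ⟨fun q => by rw [hwin]; exact h2 q, fun N hN f hf r hr => ?_⟩
  have hun : ∀ S : Fin 3 → Finset ℕ, Pool.Agent.TH894.SM.un S = S 0 ∪ S 1 ∪ S 2 := by
    intro S
    unfold Pool.Agent.TH894.SM.un
    ext x
    simp only [mem_biUnion, mem_univ, true_and, mem_union]
    constructor
    · rintro ⟨q, hq⟩
      have hq3 : q = 0 ∨ q = 1 ∨ q = 2 := by fin_cases q <;> simp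
      rcases hq3 with rfl | rfl | rfl
      · exact Or.inl (Or.inl hq)
      · exact Or.inl (Or.inr hq)
      · exact Or.inr hq
    · rintro ((h | h) | h)
      · exact ⟨0, h⟩
      · exact ⟨1, h⟩
      · exact ⟨2, h⟩
  have hch : choices (2 * A * (Nat.log b (K + 1) + 1)) K r =
      Fintype.piFinset (fun q => powersetCard (r q) (Pool.Agent.TH894.SM.Win (Pool.Agent.W93.DG.hh b A (K + 1)) (K + 1) q)) := by
    unfold choices
    simp only [hwin]
  unfold exceptions
  rw [hch]
  refine (h3 N hN f hf r (fun q => ⟨(hr q).1, by rw [← hwin]; exact (hr q).2⟩) _ (filter_subset _ _) ?_).trans (le_of_eq ?_)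
  · intro T hT
    rw [mem_filter] at hT
    rw [hun T]
    obtain ⟨_, h4, h5, h6⟩ := hT
    exact ⟨h4, h5, fun h7 => h6 (holds_of _ _ _ _ h7)⟩
  · congr 1
    rw [Fintype.card_piFinset]
    push_cast
    apply prod_congr rfl
    intro q _
    rw [card_powersetCard]

end Pool.Agent.Results.MP_92ef0c_nt.PairsFewDigitChanges
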