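import Pool.Agent.TH872.Mir10

/-!
# Prime pairs in progressions, uniformly in the modulus, for almost all palindromic differences

Definitions used:
* `Pool.Agent.H560R3.GB.C₂`, the twin prime constant `∏_{p > 2} (1 - 1 / (p - 1) ^ 2)` (the infimum of the
  partial products);
* in `Pool.Agent.TH872.Tr`: `num b k E`: the number of the palindromes with exactly `k` digits in base `b`
  which have the property `E`; `value b k κ c d z`: the integer `c + κ v`, where `v` has the pair of digits
  `d i` at the positions `i` and `k - 1 - i`, for `i < k / 2`, and, if `k` is odd, the middle digit `z`;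
  `Prob b k w u E`: the probability of the event `E` if the pairs `d i` and `z` are chosen independently of
  each other with the distributions `w i` and `u`; `Pairs b k η w`: the `w i` are distributions of pairs of
  digits, and two independent copies of the pair number `i` (`i ≥ 1`) differ in both digits with a
  probability of at least `η`.
-/

set_option autoImplicit false

namespace Pool.Agent.Results.MP_92ef0c_nt.Palindromes

open Finset Pool.Agent.H560R3.GB Pool.Agent.TH872.Tr

open Classical in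
/-- `π_d(x; a, q)`: the number of primes `p ≤ x` with `p + d ≤ x` prime and `p ≡ a (mod q)`. (For even
`d > 0` such a prime `p` is automatically odd.) -/
noncomputable def pairs (d : ℕ) (x : ℝ) (a q : ℕ) : ℕ :=
  ((range (⌊x⌋₊ + 1)).filter (fun p => p.Prime ∧ (p + d).Prime ∧ (p : ℝ) + d ≤ x ∧ p ≡ a [MOD q])).card

/-- The main term `M_d(x; q)` of the problem. -/
noncomputable def main (d : ℕ) (x : ℝ) (q : ℕ) : ℝ :=
  2 / (((range q).filter (fun α => Nat.Coprime α q ∧ Nat.Coprime (α + d) q)).card : ℝ) *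
    (∏ p ∈ d.primeFactors.filter (fun p => 2 < p), ((p : ℝ) - 1) / ((p : ℝ) - 2)) * C₂ *
    ∫ t in (2 : ℝ)..x, 1 / Real.log t ^ 2

/-- The estimate of the problem with the bound `X / (log X) ^ C`, for all `x ≤ X`, all moduli
`q ≤ (log X) ^ A₂`, all admissible classes `a`, and all even `d` with `D ≤ d ≤ D + (log X) ^ A₁`. -/
def Holds (A₁ A₂ C X D : ℕ) : Prop :=
  ∀ d q a : ℕ, D ≤ d → (d : ℝ) ≤ D + Real.log X ^ A₁ → 0 < d → Even d → 1 ≤ q → (q : ℝ) ≤ Real.log X ^ A₂ →
    Nat.Coprime a q → Nat.Coprime (a + d) q → ∀ x : ℝ, 2 ≤ x → x ≤ X →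
    |(pairs d x a q : ℝ) - main d x q| ≤ X / Real.log X ^ C

lemma holds_of (A B C X D : ℕ) (hgood : Pool.Agent.W93.PP.GoodD A B C X D) : Holds A B C X D := by
  intro d q a hd1 hd2 hd0 hdev hq1 hq2 ha had x hx2 hxX
  obtain ⟨δ, hδ⟩ := Nat.exists_eq_add_of_le hd1
  subst hδ
  have hδL : (δ : ℝ) ≤ Real.log X ^ A := by
    push_cast at hd2 ⊢
    linarith
  have h2 := hgood δ q a hδL hq1 hq2 ha had hdev.two_dvd hd0.ne' x hx2 hxX
  have e1 : main (D + δ) x q =
      sing (D + δ) / Pool.Agent.W93.PP.Cnt q (D + δ) * Pool.Agent.W93.PP.Li2 x := by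
    unfold main sing Pool.Agent.W93.PP.Cnt Pool.Agent.W93.PP.Li2
    ring
  rw [e1]
  exact h2

/-- Let `b ≥ 2`, `B`, `A₁`, `A₂`, `C`, `U`, `W`, `κ ≠ 0` and `η > 0` be fixed and let `k` be large. Let `X` be a
number with `b ^ k (log X) ^ (C + 6) ≤ X ≤ b ^ k (log X) ^ W`, and let `c` be an arbitrary integer with
`|c| ≤ B b ^ k`.

(1) Let `v` be a random integer with `k` digits in base `b`, such that the pairs formed by the digits at
the positions `i` and `k - 1 - i` are independent of each other for different `i`. Inside of a pair the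
digits may depend on each other in an arbitrary way; the distributions of the pairs are arbitrary (and
depend on the position and on `k`), only two independent copies of a pair (with `i ≥ 1`) should differ in
both digits with a probability of at least `η`. Then, with a probability of at least `1 - 1 / k ^ U`, the
integer `D = c + κ v` has the following property: if `D` is positive, then for all even `d` with
`D ≤ d ≤ D + (log X) ^ A₁`, all `x ≤ X`, all `q ≤ (log X) ^ A₂` and all `a` with `(a, q) = (a + d, q) = 1`,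
`|π_d(x; a, q) - M_d(x; q)| ≤ X / (log X) ^ C`.

(2) In particular this holds for all the palindromes `v` with `k` digits in base `b`, up to a proportion of
at most `1 / k ^ U` of them. -/
theorem result (b B A₁ A₂ C U W : ℕ) (hb : 2 ≤ b) (κ : ℤ) (hκ : κ ≠ 0) (η : ℝ) (hη : 0 < η) :
    ∃ k₀ : ℕ, ∀ k : ℕ, k₀ ≤ k →
      ∀ X : ℕ, b ^ k ≤ X → (b : ℝ) ^ k * Real.log X ^ (C + 6) ≤ X → (X : ℝ) ≤ (b : ℝ) ^ k * Real.log X ^ W →
      ∀ c : ℤ, |c| ≤ B * (b : ℤ) ^ k →
      (∀ (w : ℕ → ℕ × ℕ → ℝ) (u : ℕ → ℝ), Pairs b k η w → (∀ a, 0 ≤ u a) → ∑ a ∈ range b, u a = 1 →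
        Prob b k w u (fun d z => 0 < value b k κ c d z ∧ ¬ Holds A₁ A₂ C X (value b k κ c d z).toNat) ≤
          1 / (k : ℝ) ^ U) ∧
      (num b k (fun v => 0 < c + κ * v ∧ ¬ Holds A₁ A₂ C X (c + κ * v).toNat) : ℝ) ≤
        num b k (fun _ => True) / (k : ℝ) ^ U := by
  obtain ⟨k₀, h⟩ := transfer b B U hb κ _ (Pool.Agent.TH872.Mir.mir_pairs b B U A₁ A₂ C W hb κ hκ) η hη
  refine ⟨k₀, fun k hk X hX0 hX1 hX2 c hc => ?_⟩
  exact h k hk c hc (fun n => 0 < n ∧ ¬ Holds A₁ A₂ C X n.toNat) ⟨X, hX0, hX1, hX2, fun n hn =>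
    ⟨hn.1, fun hG => hn.2 (holds_of _ _ _ _ _ hG)⟩⟩

end Pool.Agent.Results.MP_92ef0c_nt.Palindromes
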