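import Pool.Agent.Results.MP_92ef0c_nt.ThinFamilies
import Pool.Agent.TH872.GQ.Fam

/-!
# Prime pairs in progressions, uniformly in the modulus, for differences which are quadratic values at integers with
restricted digits

Definitions used: `Pool.Agent.H560R3.GB.C₂`, the twin prime constant `∏_{p > 2} (1 - 1 / (p - 1) ^ 2)`
(the infimum of the partial products); in `Pool.Agent.TH872.GQ`: `S b D k`: the integers below `b ^ k` whose `i`-th
digit in base `b` lies in `D i`, for all `i < k`; `value κ β c n = c + κ n ^ 2 + β n`.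
-/

set_option autoImplicit false

namespace Pool.Agent.Results.MP_92ef0c_nt.QuadraticShifts

open Finset Pool.Agent.H560R3.GB Pool.Agent.TH872.GQ

open Classical in
/-- `π_d(x; a, q)`: the number of primes `p ≤ x` with `p + d ≤ x` prime and `p ≡ a (mod q)`. (For even
`d > 0` such a prime `p` is automatically odd.) -/
noncomputable def pairs (d : ℕ) (x : ℝ) (a q : ℕ) : ℕ :=
  ((range (⌊x⌋₊ + 1)).filter (fun p => p.Prime ∧ (p + d).Prime ∧ (p : ℝ) + d ≤ x ∧ p ≡ a [MOD q])).card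

/-- The main term `M_d(x; q)` of the problem. -/
noncomputable def main (d : ℕ) (x : ℝ) (q : ℕ) : ℝ :=
  2 / (((range q).filter (fun α => Nat.Coprime α q ∧ Nat.Coprime (α + d) q)).card : ℝ) *
    (∏ p ∈ d.primeFactors.filter (fun p => 2 < p), ((p : ℝ) - 1) / ((p : ℝ) - 2)) * C₂ *
    ∫ t in (2 : ℝ)..x, 1 / Real.log t ^ 2

/-- The estimate of the problem with the bound `X / (log X) ^ C`, for all `x ≤ X`, all moduli
`q ≤ (log X) ^ A₂`, all admissible classes `a`, and all even `d` with `V ≤ d ≤ V + (log X) ^ A₁`. -/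
def Holds (A₁ A₂ C X V : ℕ) : Prop :=
  ∀ d q a : ℕ, V ≤ d → (d : ℝ) ≤ V + Real.log X ^ A₁ → 0 < d → Even d → 1 ≤ q → (q : ℝ) ≤ Real.log X ^ A₂ →
    Nat.Coprime a q → Nat.Coprime (a + d) q → ∀ x : ℝ, 2 ≤ x → x ≤ X →
    |(pairs d x a q : ℝ) - main d x q| ≤ X / Real.log X ^ C

open Classical in
/-- Let `b ≥ 2`, integers `κ ≠ 0` and `β`, and `B`, `A₁`, `A₂`, `C`, `U` and `W` be fixed, let `k` be large, and let `X` be
such that `b ^ (2 k) ≤ X` and `b ^ (2 k) (log X) ^ (C + 6) ≤ X ≤ b ^ (2 k) (log X) ^ W`. Let `D 0, …, D (k - 1)` be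
arbitrary sets of at least two digits in base `b`, let `S` be the set of the integers below `b ^ k` whose `i`-th digit
lies in `D i` for all `i < k`, and let `c` be an arbitrary integer with `|c| ≤ B b ^ (2 k)`.
Then for all `n ∈ S`, except for at most `#S / k ^ U` of them, `V = c + κ n ^ 2 + β n` is `≤ 0` or has the following
property: for all even `d` with `V ≤ d ≤ V + (log X) ^ A₁`, all `x ≤ X`, all `q ≤ (log X) ^ A₂` and all `a` with
`(a, q) = (a + d, q) = 1`, `|π_d(x; a, q) - M_d(x; q)| ≤ X / (log X) ^ C`. -/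
theorem result (b B A₁ A₂ C U W : ℕ) (hb : 2 ≤ b) (κ β : ℤ) (hκ : κ ≠ 0) :
    ∃ k₀ : ℕ, ∀ k : ℕ, k₀ ≤ k → ∀ X : ℕ, b ^ (2 * k) ≤ X →
      (b : ℝ) ^ (2 * k) * Real.log X ^ (C + 6) ≤ X → (X : ℝ) ≤ (b : ℝ) ^ (2 * k) * Real.log X ^ W →
      ∀ D : ℕ → Finset ℕ, (∀ i < k, D i ⊆ range b ∧ 2 ≤ (D i).card) →
      ∀ c : ℤ, |c| ≤ B * (b : ℤ) ^ (2 * k) →
      (((S b D k).filter (fun n => 0 < value κ β c n ∧ ¬ Holds A₁ A₂ C X (value κ β c n).toNat)).card : ℝ) ≤
        (S b D k).card / (k : ℝ) ^ U := by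
  obtain ⟨h, B', k1, hBB, hfam⟩ := quad_hyp b hb κ β hκ B
  obtain ⟨n3, h3⟩ := Pool.Agent.Results.MP_92ef0c_nt.ThinFamilies.first h A₁ A₂ C B' 1 U W
  obtain ⟨k2, hk2⟩ := Pool.Agent.TH872.Sq.log_bounds b 1 hb le_rfl
  refine ⟨k1 + k2 + n3 + 1, fun k hk X hX0 hX1 hX2 D hD c hc => ?_⟩
  obtain ⟨f1, f2⟩ := hfam k (by omega) D hD c (by push_cast; exact hc)
  obtain ⟨N, hN⟩ : ∃ N : ℕ, N = b ^ (2 * k) := ⟨_, rfl⟩
  obtain ⟨hl1, _⟩ := hk2 k (by omega)
  rw [one_mul] at hl1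
  have hNr : (N : ℝ) = (b : ℝ) ^ (2 * k) := by rw [hN]; push_cast; rfl
  have hkN : k ≤ N := by
    rw [hN]
    calc k ≤ 2 * k := by omega
      _ ≤ b ^ (2 * k) := (Nat.lt_pow_self (by omega)).le
  rw [← hN] at f1 f2 hl1 hX0
  rw [← hNr] at hX1 hX2
  have hval : ∀ n, value κ β c n = c + Pool.Agent.TH872.Sq.qv κ β n := value_eq κ β c
  have hfc : Fintype.card {n // n ∈ S b D k} = (S b D k).card := Fintype.card_coe _
  have r2 := h3 N (by omega) X hX0 hX1 hX2 {n // n ∈ S b D k} (fun i => value κ β c i.1) (fun i => by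
    show |value κ β c i.1| ≤ _
    rw [hval]
    exact f1 i) (by
    have e1 : (fun i : {n // n ∈ S b D k} => value κ β c i.1) =
        (fun i : {n // n ∈ S b D k} => c + Pool.Agent.TH872.Sq.qv κ β i.1) := by
      funext i
      exact hval i.1
    rw [e1]
    exact f2)
  rw [hfc] at r2
  have r3 := r2.trans (pow_of_log _ _ (Nat.cast_nonneg _) k U (by omega) hl1)
  unfold Pool.Agent.Results.MP_92ef0c_nt.ThinFamilies.exceptions at r3
  exact conv (S b D k) (fun n => 0 < value κ β c n ∧ ¬ Holds A₁ A₂ C X (value κ β c n).toNat) _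
    (fun i hi => ⟨hi.1, fun hg => hi.2 hg⟩) _ r3

end Pool.Agent.Results.MP_92ef0c_nt.QuadraticShifts
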