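import Pool.Agent.TH935.DF5
import Pool.Agent.TH935.LF13

/-!
# Prime pairs in progressions, uniformly in the modulus, for almost all differences in thin families

Definition used: `Pool.Agent.H560R3.GB.C₂`, the twin prime constant `∏_{p > 2} (1 - 1 / (p - 1) ^ 2)`
(the infimum of the partial products).
-/

set_option autoImplicit false

namespace Pool.Agent.Results.MP_92ef0c_nt.ThinFamilies

open Finset Pool.Agent.H560R3.GB

open Classical in
/-- `π_d(x; a, q)`: the number of primes `p ≤ x` with `p + d ≤ x` prime and `p ≡ a (mod q)`. (For even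
`d > 0` such a prime `p` is automatically odd.) -/
noncomputable def pairs (d : ℕ) (x : ℝ) (a q : ℕ) : ℕ :=
  ((range (⌊x⌋₊ + 1)).filter (fun p => p.Prime ∧ (p + d).Prime ∧ (p : ℝ) + d ≤ x ∧ p ≡ a [MOD q])).card

/-- The main term `M_d(x; q)` of the problem. -/
noncomputable def main (d : ℕ) (x : ℝ) (q : ℕ) : ℝ :=
  2 / (((range q).filter (fun α => Nat.Coprime α q ∧ Nat.Coprime (α + d) q)).card : ℝ) *
    (∏ p ∈ d.primeFactors.filter (fun p => 2 < p), ((p : ℝ) - 1) / ((p : ℝ) - 2)) * C₂ *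
    ∫ t in (2 : ℝ)..x, 1 / Real.log t ^ 2

/-- The estimate of the problem with the bound `X / (log X) ^ C`, for all `x ≤ X`, all moduli
`q ≤ (log X) ^ B`, all admissible classes `a`, and all even `d` with `D ≤ d ≤ D + (log X) ^ A`. -/
def Holds (A B C X D : ℕ) : Prop :=
  ∀ d q a : ℕ, D ≤ d → (d : ℝ) ≤ D + Real.log X ^ A → 0 < d → Even d → 1 ≤ q → (q : ℝ) ≤ Real.log X ^ B →
    Nat.Coprime a q → Nat.Coprime (a + d) q → ∀ x : ℝ, 2 ≤ x → x ≤ X →
    |(pairs d x a q : ℝ) - main d x q| ≤ X / Real.log X ^ C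

/-- The additive energy of order `h` of a finite family of integers `v i`: the number of solutions of
`v (a 1) + ... + v (a h) = v (b 1) + ... + v (b h)`. -/
noncomputable def energy (h : ℕ) {ι : Type} [Fintype ι] (v : ι → ℤ) : ℕ :=
  Nat.card {q : (Fin h → ι) × (Fin h → ι) // ∑ j, v (q.1 j) = ∑ j, v (q.2 j)}

/-- The number of representations of `t` as `v (a 1) + ... + v (a h)`. -/
noncomputable def reps (h : ℕ) {ι : Type} [Fintype ι] (v : ι → ℤ) (t : ℤ) : ℕ :=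
  Nat.card {a : Fin h → ι // ∑ j, v (a j) = t}

open Classical in
/-- The number of the positive members `v i` of the family for which `Holds` fails. -/
noncomputable def exceptions (A B C X : ℕ) {ι : Type} [Fintype ι] (v : ι → ℤ) : ℕ :=
  (univ.filter (fun i => 0 < v i ∧ ¬ Holds A B C X (v i).toNat)).card

lemma holds_of (A B C X D : ℕ) (hgood : Pool.Agent.W93.PP.GoodD A B C X D) : Holds A B C X D := by
  intro d q a hd1 hd2 hd0 hdev hq1 hq2 ha had x hx2 hxX
  obtain ⟨δ, hδ⟩ := Nat.exists_eq_add_of_le hd1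
  subst hδ
  have hδL : (δ : ℝ) ≤ Real.log X ^ A := by
    push_cast at hd2 ⊢
    linarith
  have h2 := hgood δ q a hδL hq1 hq2 ha had hdev.two_dvd hd0.ne' x hx2 hxX
  have e1 : main (D + δ) x q =
      sing (D + δ) / Pool.Agent.W93.PP.Cnt q (D + δ) * Pool.Agent.W93.PP.Li2 x := by
    unfold main sing Pool.Agent.W93.PP.Cnt Pool.Agent.W93.PP.Li2
    ring
  rw [e1]
  exact h2

theorem first (h A B C B₀ C₀ U W : ℕ) :
    ∃ N₀ : ℕ, ∀ N : ℕ, N₀ ≤ N →
      ∀ X : ℕ, N ≤ X → (N : ℝ) * Real.log X ^ (C + 6) ≤ X → (X : ℝ) ≤ N * Real.log X ^ W →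
      ∀ (ι : Type) [Fintype ι] (v : ι → ℤ),
      (∀ i, |v i| ≤ B₀ * N) →
      (energy h v : ℝ) * N ≤ Real.log N ^ C₀ * (Fintype.card ι : ℝ) ^ (2 * h) →
      (exceptions A B C X v : ℝ) ≤ Fintype.card ι / Real.log N ^ U := by
  classical
  obtain ⟨N₀, h0⟩ := Pool.Agent.TH935.LF.transferK h B₀ C₀ U (κ := ℕ)
    (fun N X => N ≤ X ∧ (N : ℝ) * Real.log X ^ (C + 6) ≤ X ∧ (X : ℝ) ≤ N * Real.log X ^ W)
    (fun _ X c => 0 < c → Holds A B C X c.toNat) (by
    intro C₀ U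
    obtain ⟨N₀, h1⟩ := Pool.Agent.TH935.DF.gd_fam h A B C U C₀ B₀ W
    refine ⟨N₀, fun N hN X hX x s hs hE S hSx hS => h1 N hN x s (fun m hm => (hs m hm).1) hE X hX.1 hX.2.1 hX.2.2 S hSx
      fun m hm => ?_⟩
    have h2 := hS m hm
    push Not at h2
    obtain ⟨h3, h5⟩ := h2
    exact ⟨h3.le, fun hG => h5 (holds_of _ _ _ _ _ hG)⟩)
  refine ⟨N₀, fun N hN X hX0 hX1 hX2 ι _ v hv hE => ?_⟩
  unfold exceptions
  refine h0 N hN X ⟨hX0, hX1, hX2⟩ ι v hv hE _ ?_
  intro i hi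
  rw [mem_filter] at hi
  exact ⟨hi.2.1.ne', fun h => hi.2.2 (h hi.2.1)⟩

/-- Let `h`, `A`, `B`, `C`, `B₀`, `C₀`, `U` and `W` be fixed, let `N` be large, and let `X ≥ N` be such that
`N (log X) ^ (C + 6) ≤ X ≤ N (log X) ^ W`. Let `v i`, `i ∈ ι`, be an arbitrary finite family of integers with
`|v i| ≤ B₀ N`.

* Suppose that the additive energy of order `h` of the family is at most `log ^ C₀ N` times
  `(#ι) ^ (2 h) / N` (up to the power of the logarithm this is the least possible energy of a family with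
  members in `[-N, N]`, and the family may have as few as `N ^ (1 / h)` members). Then all positive members
  `D` of the family, with at most `#ι / log ^ U N` exceptions, have the following property: for all even
  `d` with `D ≤ d ≤ D + (log X) ^ A`, all `x ≤ X`, all `q ≤ (log X) ^ B` and all `a` with
  `(a, q) = (a + d, q) = 1`, `|π_d(x; a, q) - M_d(x; q)| ≤ X / (log X) ^ C`.
* In particular this holds if no integer has more than `log ^ C₀ N` representations as a sum of `h`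
  members of the family, and `(#ι) ^ h ≥ N / log ^ C₀ N`. -/
theorem result (h A B C B₀ C₀ U W : ℕ) :
    (∃ N₀ : ℕ, ∀ N : ℕ, N₀ ≤ N →
      ∀ X : ℕ, N ≤ X → (N : ℝ) * Real.log X ^ (C + 6) ≤ X → (X : ℝ) ≤ N * Real.log X ^ W →
      ∀ (ι : Type) [Fintype ι] (v : ι → ℤ),
      (∀ i, |v i| ≤ B₀ * N) →
      (energy h v : ℝ) * N ≤ Real.log N ^ C₀ * (Fintype.card ι : ℝ) ^ (2 * h) →
      (exceptions A B C X v : ℝ) ≤ Fintype.card ι / Real.log N ^ U) ∧
    (∃ N₀ : ℕ, ∀ N : ℕ, N₀ ≤ N →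
      ∀ X : ℕ, N ≤ X → (N : ℝ) * Real.log X ^ (C + 6) ≤ X → (X : ℝ) ≤ N * Real.log X ^ W →
      ∀ (ι : Type) [Fintype ι] (v : ι → ℤ),
      (∀ i, |v i| ≤ B₀ * N) →
      (∀ t, (reps h v t : ℝ) ≤ Real.log N ^ C₀) →
      (N : ℝ) ≤ Real.log N ^ C₀ * (Fintype.card ι : ℝ) ^ h →
      (exceptions A B C X v : ℝ) ≤ Fintype.card ι / Real.log N ^ U) := by
  refine ⟨first h A B C B₀ C₀ U W, ?_⟩
  obtain ⟨N₀, h0⟩ := first h A B C B₀ (2 * C₀) U W
  obtain ⟨N₁, h1⟩ := Pool.Agent.H373R2.T7.ev_L' 1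
  refine ⟨N₀ + N₁, fun N hN X hX0 hX1 hX2 ι _ v hv hJ hx => ?_⟩
  apply h0 N (by omega) X hX0 hX1 hX2 ι v hv
  have hL := h1 N (by omega)
  have hL0 : 0 ≤ Real.log N := by linarith
  have h2 : (energy h v : ℝ) ≤ (Fintype.card ι : ℝ) ^ h * Real.log N ^ C₀ :=
    Pool.Agent.TH935.GF.En_le h v _ hJ
  calc (energy h v : ℝ) * N ≤ ((Fintype.card ι : ℝ) ^ h * Real.log N ^ C₀) * (Real.log N ^ C₀ * (Fintype.card ι : ℝ) ^ h) :=
        mul_le_mul h2 hx (Nat.cast_nonneg _) (by positivity)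
    _ = Real.log N ^ (2 * C₀) * (Fintype.card ι : ℝ) ^ (2 * h) := by ring

end Pool.Agent.Results.MP_92ef0c_nt.ThinFamilies
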